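import Pool.Agent.Helper49_HM.LC

/-!
# Module CAT: concatenation of families of arcs
-/

set_option autoImplicit false

namespace Pool.Agent.HM.H31

open Complex Set Topology

noncomputable section

theorem box4_closed : IsClosed box4 := isClosed_Icc

/-- the concatenated family -/
def catF (c : (Fin 4 → ℝ) → ℝ) (P₁ P₂ : (Fin 4 → ℝ) → ℝ → JS) (ξ : Fin 4 → ℝ) (τ : ℝ) : JS :=
  if τ ≤ c ξ then P₁ ξ (τ / c ξ) else P₂ ξ ((τ - c ξ) / (1 - c ξ))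

theorem cat : CatStmt := by
  intro m dur₁ dur₂ P₁ P₂ h₁ h₂ hm
  set c : (Fin 4 → ℝ) → ℝ := fun ξ => dur₁ ξ / (dur₁ ξ + dur₂ ξ) with hc
  have hpos : ∀ ξ ∈ box4, 0 < dur₁ ξ + dur₂ ξ := fun ξ hξ => add_pos (h₁.pos ξ hξ) (h₂.pos ξ hξ)
  have hc0 : ∀ ξ ∈ box4, 0 < c ξ := fun ξ hξ => div_pos (h₁.pos ξ hξ) (hpos ξ hξ)
  have hc1' : ∀ ξ ∈ box4, 1 - c ξ = dur₂ ξ / (dur₁ ξ + dur₂ ξ) := by
    intro ξ hξ
    have := (hpos ξ hξ).ne'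
    simp only [hc]
    field_simp
    ring
  have hc1 : ∀ ξ ∈ box4, 0 < 1 - c ξ := by
    intro ξ hξ
    rw [hc1' ξ hξ]
    exact div_pos (h₂.pos ξ hξ) (hpos ξ hξ)
  have hcc : ContinuousOn c box4 :=
    h₁.contD.div (h₁.contD.add h₂.contD) fun ξ hξ => (hpos ξ hξ).ne'
  have hL : ∀ ξ ∈ box4, ∀ τ, τ ≤ c ξ → catF c P₁ P₂ ξ τ = P₁ ξ (τ / c ξ) := by
    intro ξ _ τ h
    simp only [catF, if_pos h]
  have hR : ∀ ξ ∈ box4, ∀ τ, c ξ ≤ τ → catF c P₁ P₂ ξ τ = P₂ ξ ((τ - c ξ) / (1 - c ξ)) := by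
    intro ξ hξ τ h
    rcases h.eq_or_lt with h | h
    · have h1 := hc0 ξ hξ
      simp only [catF]
      rw [if_pos h.ge, ← h, div_self h1.ne', sub_self, zero_div, hm ξ hξ]
    · simp only [catF]
      rw [if_neg (not_le.2 h)]
  have hL01 : ∀ ξ ∈ box4, ∀ τ, 0 ≤ τ → τ ≤ c ξ → τ / c ξ ∈ Icc (0 : ℝ) 1 := by
    intro ξ hξ τ h0 h1
    exact ⟨div_nonneg h0 (hc0 ξ hξ).le, (div_le_one (hc0 ξ hξ)).2 h1⟩
  have hR01 : ∀ ξ ∈ box4, ∀ τ, c ξ ≤ τ → τ ≤ 1 → (τ - c ξ) / (1 - c ξ) ∈ Icc (0 : ℝ) 1 := by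
    intro ξ hξ τ h0 h1
    exact ⟨div_nonneg (by linarith) (hc1 ξ hξ).le, (div_le_one (hc1 ξ hξ)).2 (by linarith)⟩
  refine ⟨fun ξ => dur₁ ξ + dur₂ ξ, catF c P₁ P₂, ⟨h₁.contD.add h₂.contD, ?_, hpos, ?_⟩, c, ?_⟩
  · -- continuity
    have hclosed : IsClosed (box4 ×ˢ Icc (0 : ℝ) 1 : Set ((Fin 4 → ℝ) × ℝ)) :=
      box4_closed.prod isClosed_Icc
    have hcf : ContinuousOn (fun p : (Fin 4 → ℝ) × ℝ => c p.1) (box4 ×ˢ Icc (0 : ℝ) 1) :=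
      hcc.comp continuousOn_fst fun p hp => hp.1
    have hA : IsClosed ((box4 ×ˢ Icc (0 : ℝ) 1) ∩
        (fun p : (Fin 4 → ℝ) × ℝ => c p.1 - p.2) ⁻¹' Ici 0) :=
      (hcf.sub continuousOn_snd).preimage_isClosed_of_isClosed hclosed isClosed_Ici
    have hB : IsClosed ((box4 ×ˢ Icc (0 : ℝ) 1) ∩
        (fun p : (Fin 4 → ℝ) × ℝ => c p.1 - p.2) ⁻¹' Iic 0) :=
      (hcf.sub continuousOn_snd).preimage_isClosed_of_isClosed hclosed isClosed_Iic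
    have hU : (box4 ×ˢ Icc (0 : ℝ) 1 : Set ((Fin 4 → ℝ) × ℝ)) =
        ((box4 ×ˢ Icc (0 : ℝ) 1) ∩ (fun p : (Fin 4 → ℝ) × ℝ => c p.1 - p.2) ⁻¹' Ici 0) ∪
        ((box4 ×ˢ Icc (0 : ℝ) 1) ∩ (fun p : (Fin 4 → ℝ) × ℝ => c p.1 - p.2) ⁻¹' Iic 0) := by
      rw [← inter_union_distrib_left, ← preimage_union, Ici_union_Iic, preimage_univ, inter_univ]
    rw [hU]
    refine ContinuousOn.union_of_isClosed ?_ ?_ hA hB
    · have h3 : ContinuousOn (fun p : (Fin 4 → ℝ) × ℝ => (p.1, p.2 / c p.1))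
          ((box4 ×ˢ Icc (0 : ℝ) 1) ∩ (fun p : (Fin 4 → ℝ) × ℝ => c p.1 - p.2) ⁻¹' Ici 0) :=
        continuousOn_fst.prodMk (continuousOn_snd.div (hcf.mono inter_subset_left)
          fun p hp => (hc0 _ hp.1.1).ne')
      refine (h₁.cont.comp h3 ?_).congr ?_
      · rintro p ⟨⟨h4, h5⟩, h6⟩
        have h6 : 0 ≤ c p.1 - p.2 := h6
        exact ⟨h4, hL01 _ h4 _ h5.1 (by linarith)⟩
      · rintro p ⟨⟨h4, h5⟩, h6⟩
        have h6 : 0 ≤ c p.1 - p.2 := h6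
        exact hL _ h4 _ (by linarith)
    · have h3 : ContinuousOn (fun p : (Fin 4 → ℝ) × ℝ => (p.1, (p.2 - c p.1) / (1 - c p.1)))
          ((box4 ×ˢ Icc (0 : ℝ) 1) ∩ (fun p : (Fin 4 → ℝ) × ℝ => c p.1 - p.2) ⁻¹' Iic 0) :=
        continuousOn_fst.prodMk ((continuousOn_snd.sub (hcf.mono inter_subset_left)).div
          (continuousOn_const.sub (hcf.mono inter_subset_left)) fun p hp => (hc1 _ hp.1.1).ne')
      refine (h₂.cont.comp h3 ?_).congr ?_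
      · rintro p ⟨⟨h4, h5⟩, h6⟩
        have h6 : c p.1 - p.2 ≤ 0 := h6
        exact ⟨h4, hR01 _ h4 _ (by linarith) h5.2⟩
      · rintro p ⟨⟨h4, h5⟩, h6⟩
        have h6 : c p.1 - p.2 ≤ 0 := h6
        exact hR _ h4 _ (by linarith)
  · -- arcs
    intro ξ hξ
    have c0 := hc0 ξ hξ
    have c1 := hc1 ξ hξ
    have hd := hpos ξ hξ
    have hfree : ∀ τ ∈ Icc (0 : ℝ) 1, Free m (catF c P₁ P₂ ξ τ) := by
      intro τ hτ
      rcases le_total τ (c ξ) with h | h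
      · rw [hL ξ hξ τ h]
        exact (h₁.arc ξ hξ _ (hL01 ξ hξ τ hτ.1 h)).1
      · rw [hR ξ hξ τ h]
        exact (h₂.arc ξ hξ _ (hR01 ξ hξ τ h hτ.2)).1
    have hdl : ∀ τ ∈ Icc 0 (c ξ), HasDerivWithinAt (catF c P₁ P₂ ξ)
        ((dur₁ ξ + dur₂ ξ) • JVF m (catF c P₁ P₂ ξ τ)) (Icc 0 (c ξ)) τ := by
      intro τ hτ
      have h4 : HasDerivWithinAt (fun τ : ℝ => τ / c ξ) (1 / c ξ) (Icc 0 (c ξ)) τ :=
        ((hasDerivAt_id τ).div_const (c ξ)).hasDerivWithinAt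
      have h5 := (h₁.arc ξ hξ _ (hL01 ξ hξ τ hτ.1 hτ.2)).2
      have h6 := h5.scomp τ h4 fun x hx => hL01 ξ hξ x hx.1 hx.2
      have h7 : HasDerivWithinAt (fun τ : ℝ => P₁ ξ (τ / c ξ))
          ((dur₁ ξ + dur₂ ξ) • JVF m (catF c P₁ P₂ ξ τ)) (Icc 0 (c ξ)) τ := by
        refine HasDerivWithinAt.congr_deriv h6 ?_
        rw [hL ξ hξ τ hτ.2, smul_smul]
        congr 1
        have : c ξ = dur₁ ξ / (dur₁ ξ + dur₂ ξ) := rfl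
        have h8 := (h₁.pos ξ hξ).ne'
        rw [this]
        field_simp
      exact h7.congr (fun x hx => hL ξ hξ x hx.2) (hL ξ hξ τ hτ.2)
    have hdr : ∀ τ ∈ Icc (c ξ) 1, HasDerivWithinAt (catF c P₁ P₂ ξ)
        ((dur₁ ξ + dur₂ ξ) • JVF m (catF c P₁ P₂ ξ τ)) (Icc (c ξ) 1) τ := by
      intro τ hτ
      have h4 : HasDerivWithinAt (fun τ : ℝ => (τ - c ξ) / (1 - c ξ)) (1 / (1 - c ξ))
          (Icc (c ξ) 1) τ :=
        (((hasDerivAt_id τ).sub_const (c ξ)).div_const (1 - c ξ)).hasDerivWithinAt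
      have h5 := (h₂.arc ξ hξ _ (hR01 ξ hξ τ hτ.1 hτ.2)).2
      have h6 := h5.scomp τ h4 fun x hx => hR01 ξ hξ x hx.1 hx.2
      have h7 : HasDerivWithinAt (fun τ : ℝ => P₂ ξ ((τ - c ξ) / (1 - c ξ)))
          ((dur₁ ξ + dur₂ ξ) • JVF m (catF c P₁ P₂ ξ τ)) (Icc (c ξ) 1) τ := by
        refine HasDerivWithinAt.congr_deriv h6 ?_
        rw [hR ξ hξ τ hτ.1, smul_smul]
        congr 1
        have h8 := (h₂.pos ξ hξ).ne'
        rw [hc1' ξ hξ]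
        field_simp
      exact h7.congr (fun x hx => hR ξ hξ x hx.1) (hR ξ hξ τ hτ.1)
    intro τ hτ
    refine ⟨hfree τ hτ, ?_⟩
    rcases lt_trichotomy τ (c ξ) with h | h | h
    · refine (hdl τ ⟨hτ.1, h.le⟩).mono_of_mem_nhdsWithin ?_
      rw [mem_nhdsWithin]
      exact ⟨Iio (c ξ), isOpen_Iio, h, fun x hx => ⟨hx.2.1, (le_of_lt hx.1)⟩⟩
    · have h8 := (hdl τ ⟨hτ.1, h.le⟩).union (hdr τ ⟨h.ge, hτ.2⟩)
      rwa [Icc_union_Icc_eq_Icc c0.le (by linarith)] at h8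
    · refine (hdr τ ⟨h.le, hτ.2⟩).mono_of_mem_nhdsWithin ?_
      rw [mem_nhdsWithin]
      exact ⟨Ioi (c ξ), isOpen_Ioi, h, fun x hx => ⟨(le_of_lt hx.1), hx.2.2⟩⟩
  · intro ξ hξ
    have c0 := hc0 ξ hξ
    have c1 := hc1 ξ hξ
    refine ⟨⟨c0, by linarith⟩, fun τ hτ => ?_, fun τ hτ => ?_⟩
    · rw [hL ξ hξ _ (by nlinarith [hτ.1, hτ.2])]
      congr 1
      field_simp
    · rw [hR ξ hξ _ (by nlinarith [hτ.1, hτ.2])]
      congr 1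
      field_simp
      ring

end

end Pool.Agent.HM.H31
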