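import Pool.Agent.Helper49_HM.Dyn

/-!
# Module SCALE: scaling to all masses near equal and all negative energies
-/

set_option autoImplicit false

namespace Pool.Agent.HM.H31

open Complex Set Topology
open scoped unitInterval

noncomputable section

variable {m m' : Fin 3 → ℝ}

theorem confM_smul {c : ℝ} (hc : c ≠ 0) {q : Conf} (hq : q ∈ ConfM m) :
    (fun i => (c : ℂ) * q i) ∈ ConfM m := by
  obtain ⟨h1, h2⟩ := hq
  constructor
  · have : ∑ i, (m i : ℂ) * ((c : ℂ) * q i) = c * ∑ i, (m i : ℂ) * q i := by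
      rw [Finset.mul_sum]
      refine Finset.sum_congr rfl fun i _ => by ring
    rw [this, h1, mul_zero]
  · intro i j hij h
    exact h2 i j hij (mul_left_cancel₀ (by exact_mod_cast hc) h)

/-- scaling of a configuration -/
def scl (h : ∀ q, q ∈ ConfM m → q ∈ ConfM m') (c : ℝ) (hc : c ≠ 0) (q : ConfM m) : ConfM m' :=
  ⟨fun i => (c : ℂ) * q.1 i, h _ (confM_smul hc q.2)⟩

theorem cls_eq {q q' : ConfM m} (u : ℂ) (hu : ‖u‖ = 1) (h : ∀ i, q'.1 i = u * q.1 i) :
    cls q = cls q' := Quotient.sound ⟨u, hu, h⟩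

theorem continuous_cls : Continuous (cls : ConfM m → RConf m) := continuous_quotient_mk'

/-- scaling on the reduced space -/
def sclR (h : ∀ q, q ∈ ConfM m → q ∈ ConfM m') (c : ℝ) (hc : c ≠ 0) :
    C(RConf m, RConf m') where
  toFun := Quotient.lift (fun q => cls (scl h c hc q)) (by
    rintro x y ⟨u, hu, hxy⟩
    refine cls_eq u hu fun i => ?_
    simp only [scl]
    rw [hxy i]
    ring)
  continuous_toFun := by
    refine Continuous.quotient_lift ?_ _
    refine continuous_cls.comp ?_
    refine Continuous.subtype_mk ?_ _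
    refine continuous_pi fun i => ?_
    exact continuous_const.mul ((continuous_apply i).comp continuous_subtype_val)

theorem sclR_cls (h : ∀ q, q ∈ ConfM m → q ∈ ConfM m') (c : ℝ) (hc : c ≠ 0) (q : ConfM m) :
    sclR h c hc (cls q) = cls (scl h c hc q) := rfl

theorem lam_pos {a b : ℝ} (ha : 0 < a) (hb : 0 < b) (s : I) : 0 < (1 - (s : ℝ)) * a + s * b := by
  have h1 := s.2.1
  have h2 := s.2.2
  rcases lt_or_ge (0 : ℝ) s with h | h
  · have : 0 ≤ (1 - (s : ℝ)) * a := mul_nonneg (by linarith) ha.le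
    have : 0 < (s : ℝ) * b := mul_pos h hb
    linarith
  · have h3 : (s : ℝ) = 0 := le_antisymm h h1
    rw [h3]
    linarith

/-- joint continuity of the scaling -/
def G0 (h : ∀ q, q ∈ ConfM m → q ∈ ConfM m') (a b : ℝ) (ha : 0 < a) (hb : 0 < b) :
    C(ConfM m × I, RConf m') where
  toFun p := cls (scl h ((1 - (p.2 : ℝ)) * a + p.2 * b) (lam_pos ha hb p.2).ne' p.1)
  continuous_toFun := by
    refine continuous_cls.comp ?_
    refine Continuous.subtype_mk ?_ _
    refine continuous_pi fun i => ?_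
    refine Continuous.mul ?_ ((continuous_apply i).comp (continuous_subtype_val.comp continuous_fst))
    refine Complex.continuous_ofReal.comp ?_
    have h2 : Continuous fun p : ConfM m × I => (p.2 : ℝ) :=
      continuous_subtype_val.comp continuous_snd
    exact ((continuous_const.sub h2).mul continuous_const).add (h2.mul continuous_const)

def G1 (h : ∀ q, q ∈ ConfM m → q ∈ ConfM m') (a b : ℝ) (ha : 0 < a) (hb : 0 < b) :
    C(RConf m, C(I, RConf m')) where
  toFun := Quotient.lift (fun q => (G0 h a b ha hb).curry q) (by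
    rintro x y ⟨u, hu, hxy⟩
    ext s
    refine cls_eq u hu fun i => ?_
    simp only [scl]
    rw [hxy i]
    ring)
  continuous_toFun := Continuous.quotient_lift (G0 h a b ha hb).curry.continuous _

theorem sclR_homotopic (h : ∀ q, q ∈ ConfM m → q ∈ ConfM m') (a b : ℝ) (ha : 0 < a)
    (hb : 0 < b) : (sclR h a ha.ne').Homotopic (sclR h b hb.ne') := by
  refine ⟨⟨⟨fun p => G1 h a b ha hb p.2 p.1, ?_⟩, ?_, ?_⟩⟩
  · have h1 : Continuous (Function.uncurry fun x y => G1 h a b ha hb x y) :=
      ContinuousMap.continuous_uncurry_of_continuous (G1 h a b ha hb)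
    exact h1.comp continuous_swap
  · intro x
    obtain ⟨q, rfl⟩ : ∃ q : ConfM m, cls q = x := Quotient.exists_rep x
    rw [sclR_cls]
    show cls _ = _
    congr 1
    apply Subtype.ext
    funext i
    simp [scl]
  · intro x
    obtain ⟨q, rfl⟩ : ∃ q : ConfM m, cls q = x := Quotient.exists_rep x
    rw [sclR_cls]
    show cls _ = _
    congr 1
    apply Subtype.ext
    funext i
    simp [scl]

theorem acc_scale (k c : ℝ) (hc : 0 < c) (q : Conf) (i : Fin 3) :
    acc (fun j => k * m j) (fun j => (c : ℂ) * q j) i = (k / c ^ 2 : ℝ) * acc m q i := by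
  unfold acc
  rw [Finset.mul_sum]
  refine Finset.sum_congr rfl fun j _ => ?_
  rw [← mul_sub, norm_mul, Complex.norm_real, Real.norm_of_nonneg hc.le]
  have hc' : (c : ℂ) ≠ 0 := by exact_mod_cast hc.ne'
  push_cast
  by_cases h0 : (‖q j - q i‖ : ℂ) = 0
  · simp [h0]
  · field_simp

theorem scale (hcore : Core1) : MainStatement := by
  obtain ⟨ε, hε, H⟩ := hcore
  refine ⟨ε, hε, fun m hm hnear h hh γ => ?_⟩
  have h0 := hm 0
  set k := m 0 with hk
  set m' : Fin 3 → ℝ := fun i => m i / k with hm'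
  have hmm : m = fun j => k * m' j := by
    funext j
    simp only [hm']
    field_simp
  have hN : Near1 ε m' := fun i => hnear i 0
  have hkC : (k : ℂ) ≠ 0 := by exact_mod_cast h0.ne'
  have hsum : ∀ q : Conf, ∑ i, (m i : ℂ) * q i = k * ∑ i, (m' i : ℂ) * q i := by
    intro q
    rw [Finset.mul_sum]
    refine Finset.sum_congr rfl fun i _ => ?_
    simp only [hm']
    push_cast
    field_simp
  have t1 : ∀ q, q ∈ ConfM m → q ∈ ConfM m' := by
    rintro q ⟨h1, h2⟩
    refine ⟨?_, h2⟩
    rw [hsum] at h1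
    exact (mul_eq_zero.1 h1).resolve_left hkC
  have t2 : ∀ q, q ∈ ConfM m' → q ∈ ConfM m := by
    rintro q ⟨h1, h2⟩
    refine ⟨?_, h2⟩
    rw [hsum, h1, mul_zero]
  obtain ⟨q, v, hs, T, u, hT, hu, hper, hE, hA, δ, hδ, hhom⟩ :=
    H m' hN ((sclR t1 1 one_ne_zero).comp γ)
  set c : ℝ := k ^ 2 / (-h) with hc
  have hcpos : 0 < c := by
    have : 0 < -h := by linarith
    positivity
  set w : ℝ := Real.sqrt (k / c ^ 3) with hw
  have hwpos : 0 < w := Real.sqrt_pos.2 (by positivity)
  have hw2 : w ^ 2 = k / c ^ 3 := Real.sq_sqrt (by positivity)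
  set q' : ℝ → Conf := fun t i => (c : ℂ) * q (w * t) i with hq'
  set v' : ℝ → Conf := fun t i => ((c * w : ℝ) : ℂ) * v (w * t) i with hv'
  have hs' : IsSol m q' v' := by
    refine ⟨fun t => t2 _ (confM_smul hcpos.ne' (hs.mem (w * t))), fun t i => ?_, fun t i => ?_⟩
    · have h1 : HasDerivAt (fun t : ℝ => w * t) w t := by
        simpa using (hasDerivAt_id t).const_mul w
      have h2 := (hs.hq (w * t) i).scomp t h1
      have h3 := h2.const_mul (c : ℂ)
      refine HasDerivAt.congr_deriv h3 ?_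
      simp only [hv', Complex.real_smul]
      push_cast
      ring
    · have h1 : HasDerivAt (fun t : ℝ => w * t) w t := by
        simpa using (hasDerivAt_id t).const_mul w
      have h2 := (hs.hv (w * t) i).scomp t h1
      have h3 := h2.const_mul ((c * w : ℝ) : ℂ)
      refine HasDerivAt.congr_deriv h3 ?_
      have h4 : acc m (q' t) i = (k / c ^ 2 : ℝ) * acc m' (q (w * t)) i := by
        conv_lhs => rw [hmm]
        exact acc_scale k c hcpos (q (w * t)) i
      rw [h4, Complex.real_smul, ← mul_assoc, ← Complex.ofReal_mul]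
      congr 2
      have : c * w * w = c * w ^ 2 := by ring
      rw [this, hw2]
      field_simp
  refine ⟨q', v', hs', T / w, u, by positivity, hu, ?_, ?_, ?_,
    (sclR t2 c hcpos.ne').comp δ, ?_, ?_⟩
  · intro t i
    simp only [hq']
    rw [mul_add, mul_div_cancel₀ _ hwpos.ne', hper]
    ring
  · intro t
    have h1 := hE (w * t)
    unfold energy at h1 ⊢
    have h2 : ∀ i, ‖v' t i‖ ^ 2 = k / c * ‖v (w * t) i‖ ^ 2 := by
      intro i
      simp only [hv']
      rw [norm_mul, Complex.norm_real, Real.norm_of_nonneg (by positivity), mul_pow, mul_pow, hw2]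
      field_simp
    have h3 : ∀ i j, ‖q' t i - q' t j‖ = c * ‖q (w * t) i - q (w * t) j‖ := by
      intro i j
      simp only [hq']
      rw [← mul_sub, norm_mul, Complex.norm_real, Real.norm_of_nonneg hcpos.le]
    have hmi : ∀ i, m i = k * m' i := fun i => congrFun hmm i
    have hne : ∀ i j, i ≠ j → ‖q (w * t) i - q (w * t) j‖ ≠ 0 := by
      intro i j hij
      rw [norm_ne_zero_iff, sub_ne_zero]
      exact (hs.mem (w * t)).2 i j hij
    have n01 := hne 0 1 (by decide)
    have n02 := hne 0 2 (by decide)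
    have n12 := hne 1 2 (by decide)
    simp only [h2, h3]
    rw [Fin.sum_univ_three] at h1 ⊢
    have hfin : (m 0 * (k / c * ‖v (w * t) 0‖ ^ 2) + m 1 * (k / c * ‖v (w * t) 1‖ ^ 2) +
          m 2 * (k / c * ‖v (w * t) 2‖ ^ 2)) / 2 -
        (m 0 * m 1 / (c * ‖q (w * t) 0 - q (w * t) 1‖) +
          m 0 * m 2 / (c * ‖q (w * t) 0 - q (w * t) 2‖) +
          m 1 * m 2 / (c * ‖q (w * t) 1 - q (w * t) 2‖)) =
        k ^ 2 / c * ((m' 0 * ‖v (w * t) 0‖ ^ 2 + m' 1 * ‖v (w * t) 1‖ ^ 2 +
          m' 2 * ‖v (w * t) 2‖ ^ 2) / 2 -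
        (m' 0 * m' 1 / ‖q (w * t) 0 - q (w * t) 1‖ + m' 0 * m' 2 / ‖q (w * t) 0 - q (w * t) 2‖ +
          m' 1 * m' 2 / ‖q (w * t) 1 - q (w * t) 2‖)) := by
      rw [hmi 0, hmi 1, hmi 2]
      field_simp
    rw [hfin, h1, hc]
    have : (-h) ≠ 0 := by linarith
    have hk0 : k ≠ 0 := h0.ne'
    field_simp
  · intro t
    have h1 := hA (w * t)
    unfold angMom at h1 ⊢
    have h2 : ∀ i, m i * ((starRingEnd ℂ) (q' t i) * v' t i).im =
        (k * c ^ 2 * w) * (m' i * ((starRingEnd ℂ) (q (w * t) i) * v (w * t) i).im) := by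
      intro i
      have e1 : (starRingEnd ℂ) (q' t i) * v' t i =
          ((c ^ 2 * w : ℝ) : ℂ) * ((starRingEnd ℂ) (q (w * t) i) * v (w * t) i) := by
        simp only [hq', hv', map_mul, Complex.conj_ofReal]
        push_cast
        ring
      rw [e1, Complex.im_ofReal_mul, congrFun hmm i]
      ring
    rw [Finset.sum_congr rfl fun i _ => h2 i, ← Finset.mul_sum, h1, mul_zero]
  · intro t
    rw [ContinuousMap.comp_apply, hδ t, sclR_cls]
    congr 1
    apply Subtype.ext
    funext i
    show (c : ℂ) * q (T * t) i = (c : ℂ) * q (w * (T / w * t)) i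
    have : w * (T / w * t) = T * t := by
      field_simp
    rw [this]
  · have e1 : γ = (sclR t2 1 one_ne_zero).comp ((sclR t1 1 one_ne_zero).comp γ) := by
      ext t
      simp only [ContinuousMap.comp_apply]
      obtain ⟨x, hx⟩ : ∃ x : ConfM m, cls x = γ t := Quotient.exists_rep (γ t)
      rw [← hx, sclR_cls, sclR_cls]
      congr 1
      apply Subtype.ext
      funext i
      simp [scl]
    rw [e1]
    have e2 : ((sclR t2 1 one_ne_zero).comp ((sclR t1 1 one_ne_zero).comp γ)).Homotopic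
        ((sclR t2 1 one_ne_zero).comp δ) :=
      (ContinuousMap.Homotopic.refl _).comp hhom
    have e3 : ((sclR t2 1 one_ne_zero).comp δ).Homotopic ((sclR t2 c hcpos.ne').comp δ) :=
      (sclR_homotopic t2 1 c one_pos hcpos).comp (ContinuousMap.Homotopic.refl _)
    exact e2.trans e3

end

end Pool.Agent.HM.H31

open Pool.Agent.HM in
theorem Pool.Agent.HM.H31.scaleStmt : ScaleStmt := H31.scale
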