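import Pool.Agent.Helper49_HM.Dyn

/-!
# Module SYM: the two reversors
-/

set_option autoImplicit false

namespace Pool.Agent.HM.H31

open Complex Set Topology

noncomputable section

theorem rx_rx (ξ : Fin 4 → ℝ) : RX (RX ξ) = ξ := by
  funext i
  fin_cases i <;> simp [RX]

theorem rx_mem (ξ : Fin 4 → ℝ) (h : ξ ∈ box4) : RX ξ ∈ box4 := by
  obtain ⟨h1, h2⟩ := h
  have a0 := h1 0
  have a1 := h1 1
  have a2 := h1 2
  have a3 := h1 3
  have b0 := h2 0
  have b1 := h2 1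
  have b2 := h2 2
  have b3 := h2 3
  simp only at a0 a1 a2 a3 b0 b1 b2 b3
  constructor
  · intro i
    fin_cases i <;> simp [RX] <;> linarith
  · intro i
    fin_cases i <;> simp [RX] <;> linarith

theorem cr_neg_right (z w : ℂ) : cr z (-w) = -cr z w := by
  simp [cr]

theorem cr_neg_left (z w : ℂ) : cr (-z) w = -cr z w := by
  simp [cr]

/-- change of the sign of the velocities -/
theorem initS_rev (m : Fin 3 → ℝ) (ζ ν : ℂ) : rev (initS m ζ 0 (-ν)) = initS m ζ 0 ν := by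
  simp only [rev, initS, cr_neg_right, norm_neg]
  refine Prod.ext ?_ (Prod.ext ?_ (Prod.ext ?_ ?_))
  · simp
  · simp
  · simp
  · simp

/-- the form of the initial data of A (independent of the numbers) -/
theorem initA_form (m : Fin 3 → ℝ) (ξ : Fin 4 → ℝ) : ∃ ζ ν : ℂ,
    initA m ξ = initS m ζ 0 ν ∧ initA m (RX ξ) = initS m ζ 0 (-ν) := by
  refine ⟨_, _, rfl, ?_⟩
  unfold initA
  congr 1
  · apply Complex.ext <;> simp [RX] <;> ring
  · apply Complex.ext <;> simp [RX] <;> ring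

theorem initA_rev (m : Fin 3 → ℝ) (ξ : Fin 4 → ℝ) : rev (initA m (RX ξ)) = initA m ξ := by
  obtain ⟨ζ, ν, h1, h2⟩ := initA_form m ξ
  rw [h1, h2, initS_rev]

theorem w_add (m : Fin 3 → ℝ) (hm : ∀ i, 0 < m i) : w0 m + w1 m = 1 := by
  have := hm 0
  have := hm 1
  unfold w0 w1
  field_simp

/-- the identity behind the second reversor -/
theorem swv_exv (m : Fin 3 → ℝ) (hm : ∀ i, 0 < m i) (ρ lam : ℂ) :
    swv m (exv (exm m) (ρ, -lam)) = -(exv (exm (swm m)) (ρ, lam)) := by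
  have h01 : (w0 m : ℂ) = 1 - (w1 m : ℂ) := by
    have := w_add m hm
    rw [show w0 m = 1 - w1 m by linarith]
    push_cast
    ring
  have he : w1 (exm (exm m)) = w1 m := by simp [w1, exm]
  have he2 : w1 (exm (exm (swm m))) = w1 (swm m) := by simp [w1, exm]
  have he3 : (w1 (exm (swm m)) : ℂ) = 1 - (w1 (exm m) : ℂ) := by
    have h0 := hm 0
    have h2 := hm 2
    have : w1 (exm (swm m)) = 1 - w1 (exm m) := by
      simp [w1, exm, swm]
      have : m 2 + m 0 ≠ 0 := by positivity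
      have : m 0 + m 2 ≠ 0 := by positivity
      field_simp
      ring
    rw [this]
    push_cast
    ring
  refine Prod.ext ?_ ?_
  · simp only [swv, exv, vA, vB, he, he2, he3, h01, Prod.fst_neg]
    ring
  · simp only [swv, exv, vA, vB, he, he2, he3, h01, Prod.snd_neg]
    ring

theorem k1_exm_swm (m : Fin 3 → ℝ) : k1 (exm (swm m)) = k1 (exm m) := by
  simp [k1, exm, swm]
  rw [mul_comm, add_comm]

theorem k2_exm_swm (m : Fin 3 → ℝ) : k2 (exm (swm m)) = k2 (exm m) := by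
  simp [k2, exm, swm]
  rw [add_comm (m 2) (m 0)]

theorem initS_swap (m : Fin 3 → ℝ) (hm : ∀ i, 0 < m i) (ζ ν : ℂ) (a : ℝ) :
    ∃ (r : ℝ) (v : ℂ), initS (exm m) (-ζ) (-a) ν = ((r : ℂ), (r : ℂ) * -ζ, -v, ν) ∧
      initS (exm (swm m)) ζ a ν = ((r : ℂ), (r : ℂ) * ζ, v, ν) := by
  have h1 : vA (exm m) 1 (-ζ) = -(vB (exm (swm m)) 1 ζ) := by
    have : w1 (exm m) = w0 (exm (swm m)) := by
      simp [w0, w1, exm, swm, add_comm]
    simp only [vA, vB, this]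
    ring
  have h2 : vB (exm m) 1 (-ζ) = -(vA (exm (swm m)) 1 ζ) := by
    have : w0 (exm m) = w1 (exm (swm m)) := by
      simp [w0, w1, exm, swm, add_comm]
    simp only [vA, vB, this]
    ring
  refine ⟨_, _, ?_, rfl⟩
  simp only [initS, h1, h2, norm_neg, cr_neg_left, k1_exm_swm, k2_exm_swm]
  have e0 : exm m 0 = m 0 := rfl
  have e1 : exm m 1 = m 2 := rfl
  have e2 : exm m 2 = m 1 := rfl
  have f0 : exm (swm m) 0 = m 2 := rfl
  have f1 : exm (swm m) 1 = m 0 := rfl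
  have f2 : exm (swm m) 2 = m 1 := rfl
  simp only [e0, e1, e2, f0, f1, f2]
  have hr : (m 0 * m 2 + m 0 * m 1 / ‖vB (exm (swm m)) 1 ζ‖ + m 2 * m 1 / ‖vA (exm (swm m)) 1 ζ‖) /
        (1 + (k1 (exm m) / 2 * ((-a) ^ 2 + (-(k2 (exm m) / k1 (exm m)) * -cr ζ ν) ^ 2) +
          k2 (exm m) / 2 * ‖ν‖ ^ 2)) =
      (m 2 * m 0 + m 2 * m 1 / ‖vA (exm (swm m)) 1 ζ‖ + m 0 * m 1 / ‖vB (exm (swm m)) 1 ζ‖) /
        (1 + (k1 (exm m) / 2 * (a ^ 2 + (-(k2 (exm m) / k1 (exm m)) * cr ζ ν) ^ 2) +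
          k2 (exm m) / 2 * ‖ν‖ ^ 2)) := by
    congr 1
    · ring
    · ring
  rw [hr]
  refine Prod.ext rfl (Prod.ext rfl (Prod.ext ?_ rfl))
  push_cast
  ring

/-- the form of the initial data of B (independent of the numbers) -/
theorem initB0_form (ξ : Fin 4 → ℝ) : ∃ (ζ : ℂ) (a : ℝ) (ν : ℂ),
    (∀ m, initB0 m ξ = initS m ζ a ν) ∧ ∀ m, initB0 m (RX ξ) = initS m (-ζ) (-a) ν := by
  refine ⟨_, _, _, fun m => rfl, fun m => ?_⟩
  unfold initB0
  congr 1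
  · apply Complex.ext <;> simp [RX] <;> ring
  · simp [RX]
    ring
  · apply Complex.ext <;> simp [RX] <;> ring

theorem initB_rev (m : Fin 3 → ℝ) (hm : ∀ i, 0 < m i) (ξ : Fin 4 → ℝ) :
    sw m (rev (initB m (RX ξ))) = rotJ (-1) (initB (swm m) ξ) := by
  obtain ⟨ζ, a, ν, h2', h1'⟩ := initB0_form ξ
  have h1 := h1' (exm m)
  have h2 := h2' (exm (swm m))
  obtain ⟨r, v, h3, h4⟩ := initS_swap m hm ζ ν a
  have p1 := swv_exv m hm (r : ℂ) ((r : ℂ) * ζ)
  have p2 := swv_exv m hm v ν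
  have hneg : ∀ p : ℂ × ℂ, exv (exm m) (-p) = -(exv (exm m) p) := by
    intro p
    refine Prod.ext ?_ ?_ <;> simp [exv, vA] <;> ring
  unfold initB
  rw [h1, h2, h3, h4]
  simp only [sw, rev, rotJ, exj]
  have q1 : ((exv (exm m) ((r : ℂ), (r : ℂ) * -ζ)).1, (exv (exm m) ((r : ℂ), (r : ℂ) * -ζ)).2) =
      exv (exm m) ((r : ℂ), -((r : ℂ) * ζ)) := by
    rw [mul_neg]
  have q2 : (-(exv (exm m) (-v, ν)).1, -(exv (exm m) (-v, ν)).2) =
      exv (exm m) (v, -ν) := by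
    have := hneg (-v, ν)
    rw [Prod.neg_mk, neg_neg] at this
    rw [this]
    rfl
  rw [q1, q2, p1, p2]
  simp

end

end Pool.Agent.HM.H31

open Pool.Agent.HM in
theorem Pool.Agent.HM.H31.sym : SymStmt :=
  ⟨H31.rx_rx, H31.rx_mem, fun m _ ξ => H31.initA_rev m ξ, fun m hm ξ => H31.initB_rev m hm ξ⟩
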